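import Mathlib

set_option autoImplicit false

namespace Pool.Agent.Results.MP_22c7c2_gt.Counter

open Set Filter Topology

universe u

def AbsHClosed (X : Type) [TopologicalSpace X] [Semigroup X] : Prop :=
  ∀ (Y : Type u) [TopologicalSpace Y] [Semigroup Y] [ContinuousMul Y] [T2Space Y] (h : X →ₙ* Y),
    Continuous h → IsClosed (range h)

@[ext] structure X where
  f : ℕ → ℕ∞
  dn : ∀ i j, i ≤ j → f j = ⊤ → f i = ⊤
  ex : ∃ i, f i ≠ ⊤

noncomputable instance : CommSemigroup X where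
  mul a b := ⟨fun i => max (a.f i) (b.f i), fun i j h => by
      simp only [max_eq_top]
      exact Or.imp (a.dn i j h) (b.dn i j h), by
    obtain ⟨i, hi⟩ := a.ex
    obtain ⟨j, hj⟩ := b.ex
    refine ⟨max i j, fun h => (max_eq_top.1 h).elim (fun h => hi (a.dn _ _ (le_max_left i j) h))
      fun h => hj (b.dn _ _ (le_max_right i j) h)⟩⟩
  mul_assoc _ _ _ := X.ext (funext fun _ => max_assoc _ _ _)
  mul_comm _ _ := X.ext (funext fun _ => max_comm _ _)

lemma mul_f (a b : X) (i : ℕ) : (a * b).f i = max (a.f i) (b.f i) := rfl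

def U (a : X) (N : ℕ) : Set X := {b | (∀ i < N, a.f i ≠ ⊤ → b.f i = a.f i) ∧
  ∀ i, i + 1 < N → a.f i = ⊤ → a.f (i + 1) ≠ ⊤ → (N : ℕ∞) ≤ b.f i}

lemma U_anti (a : X) {M N : ℕ} (h : M ≤ N) : U a N ⊆ U a M := fun _ hb =>
  ⟨fun i hi => hb.1 i (hi.trans_le h), fun i hi p q =>
    (Nat.cast_le.2 h).trans (hb.2 i (hi.trans_le h) p q)⟩

instance : TopologicalSpace X where
  IsOpen s := ∀ a ∈ s, ∃ N, U a N ⊆ s
  isOpen_univ _ _ := ⟨0, subset_univ _⟩
  isOpen_inter s t hs ht a ha := by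
    obtain ⟨M, hM⟩ := hs a ha.1
    obtain ⟨N, hN⟩ := ht a ha.2
    exact ⟨max M N, subset_inter ((U_anti a (le_max_left _ _)).trans hM)
      ((U_anti a (le_max_right _ _)).trans hN)⟩
  isOpen_sUnion S hS a := fun ⟨s, hs, ha⟩ => (hS s hs a ha).imp fun _ h => h.trans (subset_sUnion_of_mem hs)

lemma U_self (a : X) (N : ℕ) : a ∈ U a N := ⟨fun _ _ _ => rfl, fun _ _ h _ => h ▸ le_top⟩

lemma U_open (a : X) (N : ℕ) : IsOpen (U a N) := fun b hb => ⟨N, fun c hc => by
  refine ⟨fun i hi h => (hc.1 i hi (hb.1 i hi h ▸ h)).trans (hb.1 i hi h), fun i hi p q => ?_⟩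
  by_cases h : b.f i = ⊤
  · exact hc.2 i hi h (hb.1 _ hi q ▸ q)
  · exact hc.1 i (by omega) h ▸ hb.2 i hi p q⟩

lemma mem_nh {a : X} {s : Set X} : s ∈ 𝓝 a ↔ ∃ N, U a N ⊆ s :=
  ⟨fun h => (isOpen_interior (s := s) a (mem_interior_iff_mem_nhds.2 h)).imp
    fun _ k => k.trans interior_subset,
   fun ⟨N, h⟩ => mem_of_superset ((U_open a N).mem_nhds (U_self a N)) h⟩

instance : ContinuousMul X := ⟨continuous_iff_continuousAt.2 fun p s hs => by
  obtain ⟨N, h⟩ := mem_nh.1 hs
  refine mem_map.2 <| mem_of_superset (prod_mem_nhds (mem_nh.2 ⟨N, Subset.rfl⟩) (mem_nh.2 ⟨N, Subset.rfl⟩))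
    fun q hq => h ⟨fun i hi k => ?_, fun i hi k l => ?_⟩
  · rw [mul_f, Ne, max_eq_top, not_or] at k
    rw [mul_f, mul_f, hq.1.1 i hi k.1, hq.2.1 i hi k.2]
  · rw [mul_f, Ne, max_eq_top, not_or] at l
    exact (max_eq_top.1 k).elim (fun k => (hq.1.2 i hi k l.1).trans (le_max_left _ _))
      fun k => (hq.2.2 i hi k l.2).trans (le_max_right _ _)⟩

lemma sep (a b : X) (i : ℕ) (ha : a.f i = ⊤) (hb : b.f i ≠ ⊤) :
    ∃ N, Disjoint (U a N) (U b N) := by
  classical
  have h := Nat.find_spec a.ex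
  have hi : i < Nat.find a.ex := by
    by_contra hn
    exact h (a.dn _ _ (not_lt.1 hn) ha)
  obtain ⟨j, hj⟩ : ∃ j, Nat.find a.ex = j + 1 := ⟨Nat.find a.ex - 1, by omega⟩
  have h2 : a.f j = ⊤ := not_not.1 (Nat.find_min a.ex (by omega))
  have h3 : b.f j ≠ ⊤ := fun e => hb (b.dn _ _ (by omega) e)
  obtain ⟨k, hk⟩ := ENat.ne_top_iff_exists.1 h3
  refine ⟨j + k + 2, disjoint_left.2 fun c c1 c2 => ?_⟩
  have := c1.2 j (by omega) h2 (hj ▸ h)
  rw [c2.1 j (by omega) h3, ← hk, Nat.cast_le] at this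
  omega

instance : T2Space X := ⟨fun a b hab => by
  suffices ∃ N, Disjoint (U a N) (U b N) from
    let ⟨N, h⟩ := this; ⟨_, _, U_open a N, U_open b N, U_self a N, U_self b N, h⟩
  obtain ⟨i, hi⟩ := Function.ne_iff.1 (mt X.ext hab)
  by_cases ha : a.f i = ⊤
  · exact sep a b i ha (ha ▸ hi.symm)
  by_cases hb : b.f i = ⊤
  · exact (sep b a i hb ha).imp fun _ h => h.symm
  exact ⟨i + 1, disjoint_left.2 fun c c1 c2 =>
    hi ((c1.1 i (by omega) ha).symm.trans (c2.1 i (by omega) hb))⟩⟩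

def fin (g : ℕ → ℕ) : X := ⟨fun i => g i, fun _ _ _ h => absurd h (ENat.coe_ne_top _),
  0, ENat.coe_ne_top _⟩

def lev (m : ℕ) (g : ℕ → ℕ) : X := ⟨fun i => if i < m then ⊤ else g i, fun i j h k => by
  by_cases hj : j < m
  · exact if_pos (h.trans_lt hj)
  · simp [hj] at k, m, by simp⟩

lemma big (a y : X) (N : ℕ) (hy : y.f N = ⊤) : y ∈ closure (U a N) := by
  refine mem_closure_iff_nhds.2 fun s hs => ?_
  obtain ⟨M, h⟩ := mem_nh.1 hs
  let t (e : ℕ∞) : ℕ := if e = ⊤ then N + M else e.toNat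
  have t1 (e : ℕ∞) (he : e ≠ ⊤) : (t e : ℕ∞) = e := by simp [t, he]
  refine ⟨fin fun i => if i < N then t (a.f i) else t (y.f i), h ⟨fun i _ k => ?_,
    fun i _ k l => ?_⟩, fun i hi k => ?_, fun i hi k l => ?_⟩
  · have : ¬ i < N := fun e => k (y.dn _ _ e.le hy)
    simp only [fin, this, if_false, t1 _ k]
  · have : ¬ i < N := fun e => l (y.dn _ _ e hy)
    simp only [fin, this, if_false, t, k, if_true, Nat.cast_le]; omega
  · simp only [fin, hi, if_true, t1 _ k]
  · simp only [fin, show i < N by omega, if_true, t, k, Nat.cast_le]; omega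

lemma abs : AbsHClosed.{u} X := by
  intro Y _ _ _ _ h hc
  refine isClosed_of_closure_subset fun y hy => ?_
  obtain ⟨F, hF⟩ : ∃ F : Ultrafilter X, Tendsto h F (𝓝 y) := by
    have : (comap h (𝓝 y)).NeBot := comap_neBot fun t ht => mem_closure_iff_nhds.1 hy t ht |>.elim
      fun _ ⟨k, ⟨x, e⟩⟩ => ⟨x, e ▸ k⟩
    exact ⟨Ultrafilter.of (comap h (𝓝 y)), tendsto_iff_comap.2 (Ultrafilter.of_le _)⟩
  let T (i : ℕ) : Prop := ∀ k : ℕ, ∀ᶠ x in (F : Filter X), (k : ℕ∞) ≤ x.f i
  by_cases hT : ∃ m, ∀ i, m ≤ i → ¬ T i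
  · classical
    have (i : ℕ) : ∃ k : ℕ, ¬ T i → ∀ᶠ x : X in (F : Filter X), x.f i = (k : ℕ∞) := by
      by_cases hi : T i
      · exact ⟨0, fun k => absurd hi k⟩
      obtain ⟨k, hk⟩ := not_forall.1 hi
      have : (⋃ j ∈ Iio k, {x : X | x.f i = (j : ℕ)}) ∈ F :=
        mem_of_superset (Ultrafilter.eventually_not.2 hk) fun x hx => by
          have hx := not_le.1 hx
          obtain ⟨j, hj⟩ := ENat.ne_top_iff_exists.1 hx.ne_top
          exact mem_biUnion (show j < k by rwa [← hj, Nat.cast_lt] at hx) hj.symm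
      obtain ⟨j, -, hj⟩ := (Ultrafilter.finite_biUnion_mem_iff (finite_Iio k)).1 this
      exact ⟨j, fun _ => hj⟩
    choose g hg using this
    refine ⟨lev (Nat.find hT) g, tendsto_nhds_unique (hc.continuousAt.tendsto.mono_left ?_) hF⟩
    intro s hs
    obtain ⟨N, hN⟩ := mem_nh.1 hs
    refine mem_of_superset (inter_mem ((eventually_all_finite (finite_Iio N)).2 fun i _ => ?_)
      ((eventually_all_finite (I := {i | i + 1 < N}) ((finite_Iio N).subset fun i hi =>
        Nat.lt_of_succ_lt hi)).2 fun i _ => ?_)) hN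
    · by_cases hi : i < Nat.find hT
      · exact .of_forall fun x k => absurd (if_pos hi) k
      · exact (hg i (Nat.find_spec hT i (not_lt.1 hi))).mono fun x k _ => k.trans (if_neg hi).symm
    · by_cases hi : i + 1 = Nat.find hT
      · have := Nat.find_min hT (show i < Nat.find hT by omega)
        have : T i := by
          by_contra hn
          refine this fun j hj => ?_
          rcases hj.eq_or_lt with rfl | hj
          exacts [hn, Nat.find_spec hT j (by omega)]
        exact (this N).mono fun x k _ _ => k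
      · refine .of_forall fun x k l => ?_
        have k : i < Nat.find hT := by
          by_contra hn
          exact ENat.coe_ne_top _ ((if_neg hn).symm.trans k)
        exact absurd (if_pos (by omega)) l
  push Not at hT
  by_contra hn
  obtain ⟨O, P, hO, hP, p1, p2, hd⟩ := t2_separation
    (show h (fin 0) ≠ y from fun e => hn ⟨_, e⟩)
  obtain ⟨N, hN⟩ := mem_nh.1 ((hO.preimage hc).mem_nhds p1)
  obtain ⟨n, hn1, hn2⟩ := hT N
  let e (k : ℕ) : X := fin (Pi.single n k)
  have e1 (k : ℕ) : y * h (e k) = y := by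
    refine tendsto_nhds_unique (hF.mul_const _) (hF.congr' ((hn2 k).mono fun x hx => ?_))
    beta_reduce
    rw [← map_mul]
    congr 1
    ext i
    rw [mul_f, eq_comm, max_eq_left_iff]
    by_cases hi : i = n
    · simpa [e, fin, hi] using hx
    · simp [e, fin, hi]
  have e2 : Tendsto e atTop (𝓝 (lev (n + 1) 0)) := fun s hs => by
    obtain ⟨M, hM⟩ := mem_nh.1 hs
    refine mem_map.2 <| mem_of_superset (eventually_ge_atTop M) fun k hk =>
      hM ⟨fun i _ l => ?_, fun i _ l r => ?_⟩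
    · have : ¬ i < n + 1 := fun q => l (if_pos q)
      simp only [e, fin, lev, if_neg this]
      simp [show i ≠ n by omega]
    · have l : i < n + 1 := by
        by_contra hn
        exact ENat.coe_ne_top _ ((if_neg hn).symm.trans l)
      have : ¬ i + 1 < n + 1 := fun q => r (if_pos q)
      simpa [e, fin, show i = n by omega] using hk
  have e3 : y * h (lev (n + 1) 0) = y :=
    tendsto_nhds_unique ((hc.continuousAt.tendsto.comp e2).const_mul y)
      (tendsto_const_nhds.congr fun k => (e1 k).symm)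
  obtain ⟨x, hx⟩ := ((e3 ▸ hF.mul_const (h (lev (n + 1) 0))).eventually (hP.mem_nhds p2)).exists
  rw [← map_mul] at hx
  obtain ⟨c, c1, c2⟩ := mem_closure_iff.1 (big (fin 0) (x * lev (n + 1) 0) N (by
    rw [mul_f, max_eq_top]; exact Or.inr (if_pos (by omega)))) _ (hP.preimage hc) hx
  exact disjoint_left.1 hd (hN c2) c1

theorem result : ∃ (X : Type) (_ : TopologicalSpace X) (_ : CommSemigroup X),
    ContinuousMul X ∧ T2Space X ∧ (∀ x : X, x * x = x) ∧ AbsHClosed.{u} X ∧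
    ∃ C : Set X, C.Nonempty ∧ (∀ x ∈ C, ∀ y ∈ C, x * y = x ∨ y * x = y) ∧
      ¬ ∃ w : X, ∀ c ∈ C, w * c = w := by
  refine ⟨X, inferInstance, inferInstance, inferInstance, inferInstance,
    fun x => X.ext (funext fun _ => max_self _), abs, range fun n => lev n 0, range_nonempty _,
    ?_, ?_⟩
  · have (m n : ℕ) (h : m ≤ n) : lev n 0 * lev m 0 = lev n 0 := by
      ext i
      rw [mul_f, max_eq_left_iff]
      by_cases hi : i < n
      · simp [lev, hi]
      · simp [lev, hi, show ¬ i < m by omega]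
    rintro _ ⟨m, rfl⟩ _ ⟨n, rfl⟩
    exact (le_total n m).imp (this _ _) (this _ _)
  · rintro ⟨w, hw⟩
    obtain ⟨i, hi⟩ := w.ex
    refine hi ?_
    rw [← hw _ ⟨i + 1, rfl⟩, mul_f, max_eq_top]
    exact Or.inr (if_pos (by omega))

end Pool.Agent.Results.MP_22c7c2_gt.Counter
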